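import Mathlib
import Pool.Agent.R738.Ikeda17b

set_option autoImplicit false

/-!
# Isospectral spherical space forms of dimension `17` with non-isomorphic fundamental groups

The two groups are `⟨A, B | A^91 = B^9 = 1, B A B⁻¹ = A^r⟩` of order `819`, for `r = 16` and
`r = 9`, embedded in `O(18)` as direct sums of three irreducible complex representations of
degree `3`.
-/

namespace Pool.Agent.Results.MP_add580_gt.NonIsomorphicGroups

/-- `Γ` acts freely on the unit sphere of `ℝ^N`: no element other than the identity fixes a unit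
vector. -/
def ActsFreely {N : ℕ} (Γ : Subgroup (Matrix.orthogonalGroup (Fin N) ℝ)) : Prop :=
  ∀ g ∈ Γ, g ≠ 1 → ∀ v : Fin N → ℝ, v ⬝ᵥ v = 1 → g.1.mulVec v ≠ v

/-- The dimension of the space of `Γ`-invariant harmonic homogeneous polynomials of degree `k` on
`ℝ^N`, i.e. the multiplicity of the eigenvalue `k (k + N - 2)` of the Laplacian on the quotient of
the unit sphere by `Γ`. -/
noncomputable def multiplicity {N : ℕ} (Γ : Subgroup (Matrix.orthogonalGroup (Fin N) ℝ))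
    (k : ℕ) : ℕ :=
  Module.finrank ℝ ↥(MvPolynomial.homogeneousSubmodule (Fin N) ℝ k ⊓
    LinearMap.ker (∑ i : Fin N,
      (MvPolynomial.pderiv i).toLinearMap ∘ₗ (MvPolynomial.pderiv i).toLinearMap) ⊓
    ⨅ g ∈ Γ, LinearMap.ker ((MvPolynomial.aeval (fun i : Fin N =>
      ∑ j : Fin N, MvPolynomial.C (g.1 i j) * MvPolynomial.X j)).toLinearMap
        - LinearMap.id))

/-- The two quotients of the sphere have the same Laplace spectrum with multiplicities. -/
def Isospectral {N : ℕ} (Γ₁ Γ₂ : Subgroup (Matrix.orthogonalGroup (Fin N) ℝ)) : Prop :=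
  ∀ k : ℕ, multiplicity Γ₁ k = multiplicity Γ₂ k

open Pool.Agent.Helper477 Pool.Agent.Helper477.Sph Pool.Agent.Helper477.HarmInv

theorem free_iff {N : ℕ} (Γ : Subgroup (Matrix.orthogonalGroup (Fin N) ℝ)) :
    ActsFreely Γ ↔ FreeOn Γ := by
  constructor
  · intro h g hg hg1 v hv
    by_contra hv0
    have h1 : 0 < v ⬝ᵥ v := by
      rcases (dot_self_nonneg v).lt_or_eq with h2 | h2
      · exact h2
      · exact absurd (dotProduct_self_eq_zero.mp h2.symm) hv0
    set c := (Real.sqrt (v ⬝ᵥ v))⁻¹ with hc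
    refine h g hg hg1 (c • v) ?_ ?_
    · rw [smul_dotProduct, dotProduct_smul, smul_eq_mul, smul_eq_mul, ← mul_assoc, hc, ← mul_inv,
        Real.mul_self_sqrt h1.le, inv_mul_cancel₀ h1.ne']
    · rw [Matrix.mulVec_smul, hv]
  · intro h g hg hg1 v hv hgv
    rw [h g hg hg1 v hgv] at hv
    simp at hv

theorem isospectral_of_hilb {N : ℕ} (hN : 0 < N)
    (Γ₁ Γ₂ : Subgroup (Matrix.orthogonalGroup (Fin N) ℝ)) (h : hilb Γ₁ = hilb Γ₂) :
    Isospectral Γ₁ Γ₂ := by
  have hm : ∀ (Γ : Subgroup (Matrix.orthogonalGroup (Fin N) ℝ)) (k : ℕ), multiplicity Γ k =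
      Module.finrank ℝ ↥(MvPolynomial.homogeneousSubmodule (Fin N) ℝ k ⊓ LinearMap.ker (D N) ⊓
        Inv Γ) := fun Γ k => rfl
  intro k
  rw [hm, hm]
  refine isospectral_of_invariants hN Γ₁ Γ₂ (fun k => ?_) k
  have h1 := congrArg (PowerSeries.coeff k) h
  unfold hilb at h1
  rw [PowerSeries.coeff_mk, PowerSeries.coeff_mk] at h1
  exact_mod_cast h1

/-- There are an integer `n ≡ 1 (mod 4)`, namely `n = 17`, and two isospectral spherical space forms
`S^n / Γ₁`, `S^n / Γ₂` such that the groups `Γ₁` and `Γ₂` are not isomorphic. -/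
theorem result : ∃ n : ℕ, n % 4 = 1 ∧
    ∃ Γ₁ Γ₂ : Subgroup (Matrix.orthogonalGroup (Fin (n + 1)) ℝ),
      Finite Γ₁ ∧ Finite Γ₂ ∧ ActsFreely Γ₁ ∧ ActsFreely Γ₂ ∧ Isospectral Γ₁ Γ₂ ∧
      ¬ Nonempty (Γ₁ ≃* Γ₂) :=
  ⟨17, rfl, Pool.Agent.R738.Ikeda17.Gp Pool.Agent.R738.Ikeda17.P₁,
    Pool.Agent.R738.Ikeda17.Gp Pool.Agent.R738.Ikeda17.P₂,
    (inferInstance : Finite (Pool.Agent.R738.Ikeda17.Gp Pool.Agent.R738.Ikeda17.P₁)),
    (inferInstance : Finite (Pool.Agent.R738.Ikeda17.Gp Pool.Agent.R738.Ikeda17.P₂)),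
    (free_iff _).mpr (Pool.Agent.R738.Ikeda17.free_Gp _),
    (free_iff _).mpr (Pool.Agent.R738.Ikeda17.free_Gp _),
    isospectral_of_hilb (by norm_num) _ _ Pool.Agent.R738.Ikeda17.hilb_eq,
    Pool.Agent.R738.Ikeda17.not_iso⟩

end Pool.Agent.Results.MP_add580_gt.NonIsomorphicGroups
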